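import Pool.Agent.W739.CY.Stm

/-!
# Wall removal identity (left version)
-/

set_option autoImplicit false

namespace Pool.Agent.W63.CY
open Pool.Agent.W739.CY

section
variable {C : Type}

theorem spl_nil (f : List C → C → List C → ℝ) : spl f [] = 0 := rfl

theorem spl_cons (f : List C → C → List C → ℝ) (x : C) (w : List C) :
    spl f (x :: w) = f [] x w + spl (fun v c u => f (x :: v) c u) w := rfl

theorem spl_congr (w : List C) : ∀ (f g : List C → C → List C → ℝ),
    (∀ v c u, w = v ++ c :: u → f v c u = g v c u) → spl f w = spl g w := by
  induction w with
  | nil => intro f g _; rfl
  | cons x w ih =>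
    intro f g h
    rw [spl_cons, spl_cons, h [] x w rfl,
      ih _ _ (fun v c u hw => h (x :: v) c u (by rw [hw]; rfl))]

theorem spl_add (w : List C) : ∀ (f g : List C → C → List C → ℝ),
    spl (fun v c u => f v c u + g v c u) w = spl f w + spl g w := by
  induction w with
  | nil => intro f g; simp [spl_nil]
  | cons x w ih =>
    intro f g
    rw [spl_cons, spl_cons, spl_cons, ih]
    ring

theorem spl_mul (k : ℝ) (w : List C) : ∀ (f : List C → C → List C → ℝ),
    spl (fun v c u => k * f v c u) w = k * spl f w := by
  induction w with
  | nil => intro f; simp [spl_nil]
  | cons x w ih =>
    intro f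
    rw [spl_cons, spl_cons, ih]
    ring

theorem spl_zero (w : List C) : spl (fun _ _ _ => (0 : ℝ)) w = 0 := by
  induction w with
  | nil => rfl
  | cons x w ih => rw [spl_cons, ih, add_zero]

theorem spl_append (u v : List C) : ∀ (f : List C → C → List C → ℝ),
    spl f (v ++ u) = spl (fun v1 c v2 => f v1 c (v2 ++ u)) v +
      spl (fun u1 c u2 => f (v ++ u1) c u2) u := by
  induction v with
  | nil => intro f; simp [spl_nil]
  | cons x v ih =>
    intro f
    rw [List.cons_append, spl_cons, spl_cons, ih, add_assoc]
    rfl

theorem spl_concat (v : List C) (x : C) (f : List C → C → List C → ℝ) :
    spl f (v ++ [x]) = spl (fun v1 c v2 => f v1 c (v2 ++ [x])) v + f v x [] := by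
  rw [spl_append, spl_cons, spl_nil, add_zero, List.append_nil]

/-- exchange of the order of two splittings -/
theorem exch (w : List C) : ∀ (h : List C → C → List C → C → List C → ℝ),
    spl (fun v' d u' => spl (fun v1 c v2 => h v1 c v2 d u') v') w =
      spl (fun v1 c u => spl (fun v2 d v3 => h v1 c v2 d v3) u) w := by
  induction w with
  | nil => intro h; rfl
  | cons x w ih =>
    intro h
    rw [spl_cons, spl_cons, spl_nil, zero_add]
    simp only [spl_cons]
    rw [spl_add, ih (fun v1 c v2 d v3 => h (x :: v1) c v2 d v3)]

end

section
variable {C : Type}

theorem pr_append (v : List C) : ∀ (a b : Option C) (c : C) (u : List C),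
    Pr a (v ++ c :: u) b ↔ Pr a v (some c) ∧ Pr (some c) u b := by
  induction v with
  | nil => intro a b c u; exact Iff.rfl
  | cons x v ih =>
    intro a b c u
    rw [List.cons_append]
    change ok a (some x) ∧ Pr (some x) (v ++ c :: u) b ↔
      (ok a (some x) ∧ Pr (some x) v (some c)) ∧ Pr (some c) u b
    rw [ih, and_assoc]

theorem ok_none (a : Option C) : ok a none := by
  unfold ok
  by_cases h : a = none
  · exact Or.inl h
  · exact Or.inr h

theorem pr_none (w : List C) : ∀ (a b : Option C), Pr a w b → Pr a w none := by
  induction w with
  | nil => intro a b _; exact ok_none a
  | cons x w ih => intro a b h; exact ⟨h.1, ih _ _ h.2⟩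

end

theorem t_VL (hDEL : S_DEL) : S_VL := by
  intro C _ p hp a b w hab
  rcases b with _ | y
  · have : spl (fun v c u => if some c = (none : Option C) then
        F p a v none * F p none u none / (1 - p ^ (u.length + 1)) else 0) w = 0 := by
      rw [spl_congr w _ (fun _ _ _ => (0 : ℝ)), spl_zero]
      intro v c u _
      rw [if_neg (by simp)]
    rw [this, sub_zero]
  set g : List C → C → List C → ℝ := fun v c u => if some c = some y then
        F p a v (some y) * F p (some y) u none / (1 - p ^ (u.length + 1)) else 0 with hg
  have hb0 : F p (some y) ([] : List C) none = 1 := by
    rw [(hDEL C p hp (some y) none).1, if_pos (ok_none _)]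
  suffices H : ∀ (n : ℕ) (w : List C), w.length = n →
      F p a w none = F p a w (some y) + spl g w by
    rw [H _ w rfl]
    ring
  intro n
  induction n with
  | zero =>
    intro w hw
    have : w = [] := List.length_eq_zero_iff.1 hw
    subst this
    rw [(hDEL C p hp a none).1, (hDEL C p hp a (some y)).1, if_pos (ok_none _), if_pos hab,
      spl_nil, add_zero]
  | succ n ih =>
    intro w hw
    have hwne : w ≠ [] := by
      rintro rfl
      simp at hw
    by_cases hpr : Pr a w none
    · -- the deletion sum of D
      have hD : spl (fun v _ u => p ^ u.length * spl g (v ++ u)) w =
          spl (fun v c u => spl (fun u1 _ u2 => p ^ u2.length * g v c (u1 ++ u2)) u +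
            spl (fun v1 _ v2 => p ^ (v2.length + 1 + u.length) * g (v1 ++ v2) c u) v) w := by
        rw [spl_add]
        have h1 := exch w (fun v1 c v2 _ v3 => p ^ v3.length * g v1 c (v2 ++ v3))
        have h2 := exch w (fun v1 _ v2 c v3 => p ^ (v2.length + 1 + v3.length) *
          g (v1 ++ v2) c v3)
        rw [← h1, h2, ← spl_add]
        apply spl_congr
        intro v d u _
        rw [spl_append, mul_add, ← spl_mul, ← spl_mul]
        congr 1
        apply spl_congr
        intro u1 c u2 hu
        rw [hu]
        congr 2
        simp
        ring
      -- evaluation
      have hE : ∀ v c u, w = v ++ c :: u →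
          spl (fun u1 _ u2 => p ^ u2.length * g v c (u1 ++ u2)) u +
            spl (fun v1 _ v2 => p ^ (v2.length + 1 + u.length) * g (v1 ++ v2) c u) v =
          (1 - p ^ (n + 1)) * g v c u -
            (if some c = some y ∧ u = [] then F p a v (some y) else 0) := by
        intro v c u hwe
        have hlen : v.length + u.length = n := by
          have := congrArg List.length hwe
          rw [List.length_append, List.length_cons, hw] at this
          omega
        have hpr2 := (pr_append v a none c u).1 (hwe ▸ hpr)
        by_cases hc : c = y
        · subst hc
          have hd2 : (1 - p ^ (u.length + 1)) ≠ 0 := hp.sub _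
          -- second sum
          have hS2 : spl (fun v1 _ v2 => p ^ (v2.length + 1 + u.length) * g (v1 ++ v2) c u) v =
              p ^ (u.length + 1) * (1 - p ^ v.length) * (F p a v (some c) *
                F p (some c) u none / (1 - p ^ (u.length + 1))) := by
            have e1 : spl (fun v1 _ v2 => p ^ (v2.length + 1 + u.length) * g (v1 ++ v2) c u) v =
                (p ^ (u.length + 1) * (F p (some c) u none / (1 - p ^ (u.length + 1)))) *
                spl (fun v1 _ v2 => p ^ v2.length * F p a (v1 ++ v2) (some c)) v := by
              rw [← spl_mul]
              apply spl_congr
              intro v1 d v2 _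
              simp only [hg, if_true]
              rw [show v2.length + 1 + u.length = v2.length + (u.length + 1) by ring, pow_add]
              ring
            rw [e1]
            by_cases hv : v = []
            · subst hv
              simp [spl_nil]
            · rw [← (hDEL C p hp a (some c)).2.2.2.1 v hv hpr2.1]
              ring
          rw [hS2]
          by_cases hu : u = []
          · subst hu
            simp only [hg, spl_nil, if_true, List.length_nil, and_self, zero_add, pow_one]
              at hd2 ⊢
            rw [hb0]
            simp only [List.length_nil, add_zero] at hlen
            rw [hlen]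
            field_simp
            ring
          · have hupos : u.length ≠ 0 := by
              intro h0
              exact hu (List.length_eq_zero_iff.1 h0)
            obtain ⟨k, hk⟩ : ∃ k, u.length = k + 1 := ⟨u.length - 1, by omega⟩
            have hd1 : (1 - p ^ u.length) ≠ 0 := by
              rw [hk]
              exact hp.sub k
            have hS1 : spl (fun u1 _ u2 => p ^ u2.length * g v c (u1 ++ u2)) u =
                F p a v (some c) * F p (some c) u none := by
              have e1 : spl (fun u1 _ u2 => p ^ u2.length * g v c (u1 ++ u2)) u =
                  (F p a v (some c) / (1 - p ^ u.length)) *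
                  spl (fun u1 _ u2 => p ^ u2.length * F p (some c) (u1 ++ u2) none) u := by
                rw [← spl_mul]
                apply spl_congr
                intro u1 d u2 hu12
                have hl : (u1 ++ u2).length + 1 = u.length := by
                  rw [hu12]
                  simp
                  omega
                simp only [hg, if_true]
                rw [hl]
                ring
              rw [e1, ← (hDEL C p hp (some c) none).2.2.2.1 u hu hpr2.2]
              field_simp
            rw [hS1, if_neg (fun h => hu h.2), sub_zero]
            simp only [hg, if_true]
            have hpn : p ^ (n + 1) = p ^ v.length * p ^ (u.length + 1) := by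
              rw [← pow_add]
              congr 1
              omega
            rw [hpn]
            field_simp
            ring
        · have hc' : ¬ (some c = some y) := fun h => hc (Option.some.inj h)
          have z1 : spl (fun u1 _ u2 => p ^ u2.length * g v c (u1 ++ u2)) u = 0 := by
            rw [spl_congr u _ (fun _ _ _ => (0 : ℝ)), spl_zero]
            intro _ _ _ _
            simp only [hg, if_neg hc', mul_zero]
          have z2 : spl (fun v1 _ v2 => p ^ (v2.length + 1 + u.length) * g (v1 ++ v2) c u) v =
              0 := by
            rw [spl_congr v _ (fun _ _ _ => (0 : ℝ)), spl_zero]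
            intro _ _ _ _
            simp only [hg, if_neg hc', mul_zero]
          rw [z1, z2, if_neg (fun h => hc' h.1)]
          simp only [hg, if_neg hc']
          ring
      have hD2 : spl (fun v _ u => p ^ u.length * spl g (v ++ u)) w =
          (1 - p ^ (n + 1)) * spl g w -
          spl (fun v c u => if some c = some y ∧ u = [] then F p a v (some y) else 0) w := by
        rw [hD, spl_congr w _ _ hE]
        have : (fun v c u => (1 - p ^ (n + 1)) * g v c u -
            (if some c = some y ∧ u = [] then F p a v (some y) else 0)) =
            (fun v c u => (1 - p ^ (n + 1)) * g v c u +
              (-1) * (if some c = some y ∧ u = [] then F p a v (some y) else 0)) := by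
          funext v c u
          ring
        rw [this, spl_add, spl_mul, spl_mul]
        ring
      -- the deletion sum of `F a w b`
      have hF2 : spl (fun v _ u => p ^ u.length * F p a (v ++ u) (some y)) w =
          (1 - p ^ (n + 1)) * F p a w (some y) +
          spl (fun v c u => if some c = some y ∧ u = [] then F p a v (some y) else 0) w := by
        rcases List.eq_nil_or_concat w with h0 | ⟨v0, x, hx⟩
        · exact absurd h0 hwne
        · rw [List.concat_eq_append] at hx
          have hlast : spl (fun v c u => if some c = some y ∧ u = [] then F p a v (some y) else 0)
              w = if some x = some y then F p a v0 (some y) else 0 := by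
            rw [hx, spl_concat]
            rw [spl_congr v0 _ (fun _ _ _ => (0 : ℝ)), spl_zero, zero_add]
            · simp
            · intro v1 c v2 _
              rw [if_neg]
              rintro ⟨-, h⟩
              simp at h
          by_cases hxy : x = y
          · subst hxy
            rw [hlast, if_pos rfl]
            have h1 : F p a w (some x) = 0 := by
              apply (hDEL C p hp a (some x)).2.1
              rw [hx, pr_append]
              rintro ⟨-, h⟩
              rcases h with h | h
              · simp at h
              · exact h rfl
            rw [h1, mul_zero, zero_add, hx, spl_concat]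
            rw [spl_congr v0 _ (fun _ _ _ => (0 : ℝ)), spl_zero, zero_add]
            · simp
            · intro v1 c v2 _
              have h2 : F p a (v1 ++ (v2 ++ [x])) (some x) = 0 := by
                apply (hDEL C p hp a (some x)).2.1
                rw [← List.append_assoc, pr_append]
                rintro ⟨-, h⟩
                rcases h with h | h
                · simp at h
                · exact h rfl
              rw [h2, mul_zero]
          · rw [hlast, if_neg (fun h => hxy (Option.some.inj h)), add_zero]
            have h1 : Pr a w (some y) := by
              rw [hx, pr_append]
              refine ⟨((pr_append v0 a none x []).1 (hx ▸ hpr)).1, ?_⟩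
              exact Or.inr (fun h => hxy (Option.some.inj h))
            rw [← (hDEL C p hp a (some y)).2.2.2.1 w hwne h1, hw]
      have h3 := (hDEL C p hp a none).2.2.2.1 w hwne hpr
      rw [hw] at h3
      have h4 : spl (fun v _ u => p ^ u.length * F p a (v ++ u) none) w =
          spl (fun v _ u => p ^ u.length * F p a (v ++ u) (some y)) w +
          spl (fun v _ u => p ^ u.length * spl g (v ++ u)) w := by
        rw [← spl_add]
        apply spl_congr
        intro v c u hwe
        rw [ih (v ++ u) (by
          have := congrArg List.length hwe
          rw [List.length_append, List.length_cons, hw] at this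
          rw [List.length_append]
          omega)]
        ring
      rw [h4, hD2, hF2] at h3
      have hne : (1 - p ^ (n + 1)) ≠ 0 := hp.sub n
      apply mul_left_cancel₀ hne
      rw [h3]
      ring
    · -- improper words
      have h1 : F p a w none = 0 := (hDEL C p hp a none).2.1 w hpr
      have h2 : F p a w (some y) = 0 :=
        (hDEL C p hp a (some y)).2.1 w (fun h => hpr (pr_none w a _ h))
      have h3 : spl g w = 0 := by
        rw [spl_congr w _ (fun _ _ _ => (0 : ℝ)), spl_zero]
        intro v c u hwe
        simp only [hg]
        by_cases hc : c = y
        · subst hc
          rw [if_pos rfl]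
          by_cases h4 : Pr a v (some c)
          · have h5 : ¬ Pr (some c) u none := by
              intro h5
              apply hpr
              rw [hwe, pr_append]
              exact ⟨h4, h5⟩
            rw [(hDEL C p hp (some c) none).2.1 u h5, mul_zero, zero_div]
          · rw [(hDEL C p hp a (some c)).2.1 v h4, zero_mul, zero_div]
        · rw [if_neg (fun h => hc (Option.some.inj h))]
      rw [h1, h2, h3, add_zero]

end Pool.Agent.W63.CY
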